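import Pool.Agent.helper81.NW.Spec

set_option autoImplicit false

namespace Pool.Agent.helper81.NW

open Pool.Agent.helper84.NR
open scoped Classical
open Finset

theorem SYW : SYW_stmt := by
  intro V F M x y
  have hU : UU M x y = UU M y x := by
    funext e
    exact propext or_comm
  refine ⟨hU, ?_, ?_⟩
  · intro f g
    unfold CL
    rw [hU]
  · intro g
    unfold oth CL
    rw [hU]
    exact and_comm

end Pool.Agent.helper81.NW
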